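import Pool.Agent.Helper11.Fatou.Final

namespace Pool.Agent.Results.MP_3555ad_an.NotDiscreteFatou

open Pool.Agent.Helper11.Koebe Pool.Agent.Helper11.Fatou Filter Topology

/-- **The discrete Fatou theorem is false.** There are a hyperbolic combinatorial open disc `K`
with maximal packing `Q`, a bounded circle packing `P` for `K` and a set `E` of positive measure
of points `e^{iθ}` of the unit circle such that for every `θ ∈ E` there are vertices
`Z 0, Z 1, ...` of `K` whose circles in `Q` have centres converging nontangentially to `e^{iθ}`,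
while the centres of their circles in `P` do not converge. In particular the statement
`DiscreteFatou` (Q1) is false. -/
theorem result :
    (∃ (V : Type) (K : Tri V) (Q P : Packing K), IsOpenDisc K ∧ IsMaximalPacking Q ∧
      IsBoundedPacking P ∧
      ∃ E : Set ℝ, MeasurableSet E ∧ E ⊆ Set.Ico 0 (2 * Real.pi) ∧
        0 < MeasureTheory.volume E ∧
        ∀ θ ∈ E, ∃ Z : ℕ → V,
          Nontangential (fun j => Q.c (Z j)) (Complex.exp ((θ : ℝ) * Complex.I)) ∧
          ¬ ∃ w : ℂ, Tendsto (fun j => P.c (Z j)) atTop (𝓝 w)) ∧
    ¬ DiscreteFatou :=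
  ⟨counterexample, not_discreteFatou⟩

end Pool.Agent.Results.MP_3555ad_an.NotDiscreteFatou
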